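import Pool.Agent.Zk74.FV.Cyc

/-!
# Fujita's very ampleness conjecture for complete intersections and finite covers of toric bundles

Let `Y → X` be a toric bundle (fibre a smooth complete toric variety of dimension `n`), `s, q ≥ 0`, let
`W` be the total space of a vector bundle `B_1 ⊕ … ⊕ B_s` on `Y` (a sum of line bundles), and let `Z` be
a complete intersection in `W`: a submanifold of codimension `s + q` given by sections `P_1, …,
P_(s+q)` of the pullbacks of line bundles `D_1, …, D_(s+q)` of `Y`, polynomials in the coordinates
`y_l` of the fibres of `W`. We assume that `D_l - B_l` and `D_l - 2 B_l` are semiample for `l ≤ s` and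
that `D_l` is ample for `l > s`. For `s = 0` these are the complete intersections of ample divisors in
`Y`; for `q = 0` and compact `Z` they are finite covers `Z → Y`, for instance the cyclic covers
`y ^ m = F` of degree `m ≥ 2`, where `B` is semiample (ample, or for instance of finite order) and
`F = 0` is a smooth divisor in `|m B|`. We have `dim Z = dim X + n - q`, and by the adjunction formula
`K_Z` is the pullback of `K_Y + ∑ D_l - ∑ B_l`. If `Z` is compact, then `Z → Y` is finite and the
pullbacks to `Z` of ample line bundles on `Y` are ample. (For cyclic covers with `B` ample and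
`dim Z ≥ 3` all line bundles on `Z` are pullbacks, by the theorem of Lefschetz.)

(1) Let `X` be any complex manifold such that `K_X + A_1 + … + A_m` is globally generated for `m ≥ a`
and very ample for `m ≥ b` for all ample line bundles `A_1, …, A_m` on `X`, which may be different.
Then `K_Z + L_1 + … + L_k` is globally generated for `k ≥ max(a, n + 1) - q` and very ample for
`k ≥ max(b, n + 2) - q`, for all ample line bundles `L_1, …, L_k` on `Y`. If `a ≤ dim X + 1` and
`b ≤ dim X + 2` (Fujita's conjectures, for different ample line bundles) this holds for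
`k ≥ dim Z + 1` and for `k ≥ dim Z + 2`.

(2) This applies to `X = V / Γ`, the quotient of a complex torus by a finite group which acts freely,
if the holonomy group is abelian and the `ℓ`-th iterated Albanese fibre is a torus, with
`a = ℓ + 2`, `b = ℓ + 3` and with `a = dim X + 1`, `b = dim X + 2`; and if the holonomy group is cyclic,
`ℓ` being the number of prime factors of its order. For these `X` the conjecture of Fujita holds for
all `Z` and the pullbacks of ample line bundles on `Y`. If `X` is a torus (`ℓ = 0`) then one may take
`a = 2`, `b = 3`; for `X` a point `Y` is any smooth complete toric variety.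

(3) The cyclic covers belong to the class.

The starting file `MP_9ff3e7_ag.BagneraDeFranchis` has `X` as in (2) and the toric bundles `Y`
(`s = q = 0`), and provides the sections. The proof of (1): the sum of an ample and a semiample line
bundle is ample, so by the theorem for `Y` with `k + q` ample line bundles
`N = K_Y + ∑ D_l - ∑ B_l + ∑ L_j` is very ample and `N - B_l` is globally generated on `Y`. The sections
of `N` separate the fibres of `W → Y` and the directions transversal to them, and the products
`y_l f`, `f` a section of `N - B_l`, separate the points of the fibres and the vertical tangent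
vectors, because of Euler's formula for the action of the torus on the Cox coordinates.

Definitions. `Cov`, `IsSecW`, `SameW`, `ZeroW`, `dW`, `OnZ`, `IsCov`, `GGZ`, `VAZ`, `adjD`, `adjM`,
`Adjoint`, `AdjointZ`, `cyclic`, `SmoothDiv`, `SemiY` are in `Pool.Agent.Zk74.FV.Defs`; `Aff`, `pt`, `lp`,
`shift`, `parts`, `IsFreeQuotient`, `quo`, `HasChern`, `fibreSpace` in `Pool.Agent.Q36.HV.S`;
`Atlas`, `LB`, `GG`, `VA`, `IsAmple`, `IsSecY`, `GGY`, `VAY`, `AmpleY` in `Pool.Agent.Q47.FJ.Defs`;
`IsCanonical`, `IsCanonicalY` in `Pool.Agent.Q47.FJ.DefsT`; `IsSmoothFan` in `Pool.Agent.Q47.TB.Defs`.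
-/

set_option autoImplicit false

namespace Pool.Agent.Results.MP_e09b14_ag.CoversOfToricBundles

open Q47.FJ Q47.TB Q36.HV Pool.Agent.Zk74.FV

/-- (1) If `K_X + A_1 + … + A_m` is globally generated for `m ≥ a` and very ample for `m ≥ b` for all
ample line bundles in the group `Pic` of line bundles on `X`, then `K_Z + L_1 + … + L_k` is globally
generated for `k + q ≥ max(a, n + 1)` and very ample for `k + q ≥ max(b, n + 2)`, for all complete
intersections `Z` in the total spaces of sums of line bundles on toric bundles over `X`.

(2) This is the case for the quotients `X = V / Γ` of complex tori by free actions of finite groups with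
abelian holonomy group whose `ℓ`-th iterated Albanese fibre is a torus (`a = ℓ + 2` or
`a = dim X + 1`, `b = a + 1`), and with cyclic holonomy group (`ℓ` the number of prime factors of its
order). So `K_Z + L_1 + … + L_k` is very ample for `k ≥ dim Z + 2`.

(3) The smooth cyclic covers `y ^ m = F` of `Y`, `m ≥ 2`, given by a semiample line bundle `B` and a
section `F` of `m B`, are complete intersections `Z` of this type, with `s = 1`, `q = 0`. -/
theorem result :
    (∀ (E : Type) [NormedAddCommGroup E] [NormedSpace ℂ E] (I K : Type) (X : Atlas E I K)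
      (Pic : Subgroup (LB X)) (a b : ℕ), a ≤ b → Adjoint X (· ∈ Pic) a b →
        AdjointZ X (· ∈ Pic) a b) ∧
    (∀ (V : Type) [NormedAddCommGroup V] [NormedSpace ℂ V] [FiniteDimensional ℂ V]
      (Γ : Subgroup (Aff V)), IsFreeQuotient Γ → ∀ a : ℕ,
        ((∀ A ∈ parts Γ, ∀ B ∈ parts Γ, A ∘ B = B ∘ A) ∧
            ∃ ℓ : ℕ, (fibreSpace Γ)^[ℓ + 1] ⊤ = ⊥ ∧
              (a = ℓ + 2 ∨ (1 ≤ Module.finrank ℂ V ∧ a = Module.finrank ℂ V + 1))) ∨
          ((∃ γ₀ ∈ Γ, ∀ A ∈ parts Γ, ∃ n : ℕ, A = (lp γ₀)^[n]) ∧
            (a = (parts Γ).ncard.primeFactorsList.length + 2 ∨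
              (1 ≤ Module.finrank ℂ V ∧ a = Module.finrank ℂ V + 1))) →
        AdjointZ (quo Γ) (fun A => ∃ H, HasChern A H) a (a + 1)) ∧
    (∀ (E : Type) [NormedAddCommGroup E] [NormedSpace ℂ E] (I K : Type) (X : Atlas E I K)
      (Pic : Subgroup (LB X)) (ι : Type) [Fintype ι] (n : ℕ) (u : ι → Fin n → ℤ)
      (S : Set (Set ι)), IsSmoothFan u S → ∀ (c : ι → LB X) (b : ι → ℤ), ∀ B ∈ Pic,
        SemiY u S c b B → ∀ m : ℕ, 2 ≤ m → ∀ F, IsSecY u c (fun j => m * b j) (B ^ m) F →
          SmoothDiv S X F → IsCov u S c (cyclic b B m F) (· ∈ Pic)) :=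
  ⟨fun _ _ _ _ _ _ _ _ _ hab hX => adjZ hab hX,
    fun _ _ _ _ Γ hΓ a h => adjZ_torus Γ (adjoint_cases Γ hΓ a h),
    fun _ _ _ _ _ _ _ _ _ _ _ _ hS _ _ _ hB hs _ hm _ hF hsm => cyclic_cov hS hB hs hm hF hsm⟩

end Pool.Agent.Results.MP_e09b14_ag.CoversOfToricBundles
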