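import Pool.Agent.Zk57.TW.Tw3
import Pool.Agent.Results.MP_e09b14_ag.SmallDiagonalQuotients
import Pool.Agent.Results.MP_e09b14_ag.FiniteQuotients

/-!
# Fujita's very ampleness conjecture for twisted products (isotrivial fibre bundles)

`Y ⊂ P^N` is given by a homogeneous ideal `I`, and a finite group `G` acts by diagonal matrices on
`P^N`, preserving `Y`, freely on `Y`. Let `ω_Y = O(κ)`, `n = dim Y`, and let `Y` be a complete
intersection or arithmetically Cohen-Macaulay. Let `V` be ANY linear representation of `G`, and let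
`Y' ⊂ P(V)` be ANY subvariety which is stable under `G`. The group `G` acts freely on `Y × Y'`, and
`X = (Y × Y') / G` is a fibre bundle over `Y / G` with the fibre `Y'`. The line bundles on `X` whose
pullback to `Y × Y'` is `O(e₁) ⊠ O(e₂)` are given by characters `χ` of `G`, and the forms `F(x, z)` of
bidegree `(e₁, e₂)` on which `G` acts by `χ` are sections of them.

Let `A` be a line bundle on `X` whose pullback is `O(k) ⊠ A'`, `k ≥ 1`, with a line bundle `A'` on `Y'`,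
such that `K_Y' + m A' = O(e₂)`, `e₂ ≥ 1`; if `K_Y' + m A'` is very ample, we can take `e₂ = 1` and
`V` dual to `H⁰(Y', K_Y' + m A')`. Then the pullback of `K_X + m A` is `O(e₁) ⊠ O(e₂)`, `e₁ = κ + m k`.
Let `m ≥ n + 2`, and suppose that one of the following conditions holds:
* `|G| ≤ e₁`;
* `Y` is a hypersurface of positive dimension;
* `n + 2 ≤ N` and `(N - n) (δ - 1) < e₁` for the exponent `δ` of `G`;
* `n + 2 ≤ N` and `Y` is a complete intersection of forms of degrees `≥ δ`.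

**Theorem.** `K_X + m A` is very ample on `X`: the forms of bidegree `(e₁, e₂)` and character `χ` have
no common zero, separate points and separate tangent vectors of `X`; even on `(Y × P(V)) / G ⊃ X`.

For `m ≥ dim X + 2` the bundle `K_Y' + m A'` is very ample if Fujita's conjecture holds for `Y'`, for
example if `Y'` is a smooth curve, a smooth surface, or a homogeneous space, for any action of `G` on
`Y'`. So the conjecture holds for all these bundles `X` over `Y / G`, for all `A` of this kind.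

More generally (first part of the result), very ampleness of all the twists by characters on the
base `Y / G` of the bundle given by the degree `e₁` implies very ampleness on the twisted product.

The third part is the same for arbitrary finite groups of projective transformations, abelian or not:
`G` acts linearly on `ℂ^(N+1)`, preserving `Y` (which is a complete intersection, or whose ideal is
generated by forms of degree at most `e₁ + 1`), the subgroup `S` of the elements which act by scalars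
on `ℂ^(N+1)` acts by scalars on `V`, and `G / S` acts freely on `Y` and has at most `e₁` elements.

Proof. There are forms `E` of degree `e₁` with `E(y) ≠ 0` and `E(g y) = 0` for `g ∉ S` (and similar
forms for pairs of points and for tangent vectors); in the first part they are obtained from the
orthogonality relations for the characters of `G`, in the third part they come from the starting
result `FiniteQuotients`. One uses the sections `∑_g χ(g)⁻¹ E(g x) H(g z)`.
-/

set_option autoImplicit false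

namespace Pool.Agent.Results.MP_e09b14_ag.IsotrivialFibrations

open MvPolynomial
open Pool.Agent.Results.MP_e09b14_ag.SmallExponentQuotients (DiagonalCover CompleteIntersection
  CohenMacaulay Section VeryAmple)
open Pool.Agent.Results.MP_e09b14_ag.FiniteQuotients (ProjectiveCover GeneratedInDegreesLE)

/-- The forms `F(x, z)` of bidegree `(e₁, e₂)` on which `G` acts by the character `χ`; here `G` acts on
`ℂ^(N+1)` by `a` and on `V = ℂ^(M+1)` by the representation `ρ`. -/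
def TwistedSection {G : Type} [Group G] {N M : ℕ} (a : G → (Fin (N + 1) → ℂ) → Fin (N + 1) → ℂ)
    (ρ : Representation ℂ G (Fin (M + 1) → ℂ)) (e₁ e₂ : ℕ) (χ : G →* ℂˣ)
    (F : MvPolynomial (Fin (N + 1) ⊕ Fin (M + 1)) ℂ) : Prop :=
  (∀ (s t : ℂ) (x : Fin (N + 1) → ℂ) (z : Fin (M + 1) → ℂ),
    eval (Sum.elim (fun i => s * x i) (fun j => t * z j)) F =
      s ^ e₁ * t ^ e₂ * eval (Sum.elim x z) F) ∧
  ∀ (g : G) (x : Fin (N + 1) → ℂ) (z : Fin (M + 1) → ℂ),
    eval (Sum.elim (a g x) (ρ g z)) F = χ g * eval (Sum.elim x z) F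

/-- The forms of bidegree `(e₁, e₂)` and character `χ` embed `(Y × P(V)) / G`, where `Y` is given by the
ideal `I`. -/
def TwistedVeryAmple {G : Type} [Group G] {N M : ℕ} (I : Ideal (MvPolynomial (Fin (N + 1)) ℂ))
    (a : G → (Fin (N + 1) → ℂ) → Fin (N + 1) → ℂ)
    (ρ : Representation ℂ G (Fin (M + 1) → ℂ)) (e₁ e₂ : ℕ) (χ : G →* ℂˣ) : Prop :=
  -- no base points
  (∀ (y : Fin (N + 1) → ℂ) (z : Fin (M + 1) → ℂ), y ≠ 0 → z ≠ 0 → (∀ p ∈ I, eval y p = 0) →
    ∃ F, TwistedSection a ρ e₁ e₂ χ F ∧ eval (Sum.elim y z) F ≠ 0) ∧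
  -- points are separated
  (∀ (y y' : Fin (N + 1) → ℂ) (z z' : Fin (M + 1) → ℂ), y ≠ 0 → y' ≠ 0 → z ≠ 0 → z' ≠ 0 →
    (∀ p ∈ I, eval y p = 0) → (∀ p ∈ I, eval y' p = 0) →
    (¬ ∃ (g : G) (c c' : ℂ), (∀ i, y' i = c * a g y i) ∧ ∀ j, z' j = c' * ρ g z j) →
    ∃ F, TwistedSection a ρ e₁ e₂ χ F ∧ eval (Sum.elim y z) F = 0 ∧
      eval (Sum.elim y' z') F ≠ 0) ∧
  -- tangent vectors are separated
  (∀ (y u : Fin (N + 1) → ℂ) (z w : Fin (M + 1) → ℂ), y ≠ 0 → z ≠ 0 →
    (∀ p ∈ I, eval y p = 0) → (∀ p ∈ I, ∑ i, eval y (pderiv i p) * u i = 0) →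
    (¬ ∃ c c' : ℂ, (∀ i, u i = c * y i) ∧ ∀ j, w j = c' * z j) →
    ∃ F, TwistedSection a ρ e₁ e₂ χ F ∧ eval (Sum.elim y z) F = 0 ∧
      ∑ i, eval (Sum.elim y z) (pderiv (Sum.inl i) F) * u i +
        ∑ j, eval (Sum.elim y z) (pderiv (Sum.inr j) F) * w j ≠ 0)

/-- The conditions on `G` and `Y` in the second part. -/
def Good {G : Type} [Group G] {N : ℕ} (D : DiagonalCover G N) (n : ℕ) (κ : ℤ) (e : ℕ) : Prop :=
  Nat.card G ≤ e ∨ (CompleteIntersection 1 D.I n κ ∧ 1 ≤ n ∧ N = n + 1) ∨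
    (n + 2 ≤ N ∧ ((N - n) * (Monoid.exponent G - 1) < e ∨
      CompleteIntersection (Monoid.exponent G) D.I n κ))

/-- `G / S` has at most `e` elements, where `S` is the subgroup of the elements acting by scalars. -/
def IndexLE {G : Type} [Group G] {N : ℕ} (D : ProjectiveCover G N) (e : ℕ) : Prop :=
  Nat.card G ≤ e * Nat.card {g : G // ∃ c : ℂ, ∀ x, D.ρ g x = c • x}

/-- The elements which act on `ℂ^(N+1)` by a scalar `c` act on `V` by a scalar `c'`, and `χ` is
`c ^ e₁ * c' ^ e₂` on them. -/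
def Compat {G : Type} [Group G] {N M : ℕ} (D : ProjectiveCover G N)
    (ρ : Representation ℂ G (Fin (M + 1) → ℂ)) (e₁ e₂ : ℕ) (χ : G →* ℂˣ) : Prop :=
  ∀ (g : G) (c : ℂ), (∀ x, D.ρ g x = c • x) →
    ∃ c' : ℂ, (∀ z, ρ g z = c' • z) ∧ (χ g : ℂ) = c ^ e₁ * c' ^ e₂

theorem twist {G : Type} [Group G] [Finite G] {N M : ℕ} (D : DiagonalCover G N)
    (ρ : Representation ℂ G (Fin (M + 1) → ℂ)) {e₁ e₂ : ℕ} (h : ∀ χ : G →* ℂˣ, VeryAmple D e₁ χ)
    (he₂ : 1 ≤ e₂) (χ : G →* ℂˣ) :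
    TwistedVeryAmple D.I (fun g x i => (D.α i g : ℂ) * x i) ρ e₁ e₂ χ := by
  have _ := Fintype.ofFinite G
  obtain ⟨h1, h2, h3⟩ := Pool.Agent.Zk57.TW.twist D ρ h he₂ χ
  refine ⟨h1, h2, ?_⟩
  intro y u z w hy0 hz0 hy hu hne
  obtain ⟨F, hF1, hF2, hF3⟩ := h3 y u z w hy0 hz0 hy hu hne
  refine ⟨F, hF1, hF2, ?_⟩
  have h4 : Pool.Agent.Zk57.TW.der (Sum.elim y z) (Sum.elim u w) F =
      ∑ x, eval (Sum.elim y z) (pderiv x F) * Sum.elim u w x := rfl
  rw [h4, Fintype.sum_sum_type] at hF3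
  exact hF3

/-- the starting result on quotients by small groups and on hypersurfaces -/
theorem small {G : Type} [Group G] [Finite G] {N : ℕ} (D : DiagonalCover G N) (n : ℕ) (κ : ℤ)
    (hY : CompleteIntersection 1 D.I n κ ∨ CohenMacaulay D.I n κ)
    (k m e : ℕ) (hk : 1 ≤ k) (hm : n + 2 ≤ m) (he : (e : ℤ) = κ + m * k)
    (hG : Nat.card G ≤ e ∨ CompleteIntersection 1 D.I n κ ∧ 1 ≤ n ∧ N = n + 1)
    (χ : G →* ℂˣ) : VeryAmple D e χ := by
  have hci : CompleteIntersection 1 D.I n κ →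
      Pool.Agent.Results.MP_e09b14_ag.SmallDiagonalQuotients.CompleteIntersection D.I n κ := by
    rintro ⟨c, f, d, hfd, h⟩
    exact ⟨c, f, d, fun j => ⟨(hfd j).1, (hfd j).2.1⟩, h⟩
  exact Pool.Agent.Results.MP_e09b14_ag.SmallDiagonalQuotients.result
    { I := D.I, homogeneous := D.homogeneous, α := D.α, stable := D.stable, free := D.free } n κ
    (hY.imp hci id) k m e hk hm he (hG.imp id fun h => ⟨hci h.1, h.2⟩) χ

/-- arbitrary finite groups of projective transformations -/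
theorem projective {G : Type} [Group G] [Finite G] {N M : ℕ} (D : ProjectiveCover G N)
    (ρ : Representation ℂ G (Fin (M + 1) → ℂ)) (n : ℕ) (κ : ℤ) (k m e₁ e₂ : ℕ) (hk : 1 ≤ k) (hm : n + 2 ≤ m) (he : (e₁ : ℤ) = κ + m * k)
    (he₂ : 1 ≤ e₂) (hY : CompleteIntersection 1 D.I n κ ∨ GeneratedInDegreesLE D.I (e₁ + 1))
    (hG : IndexLE D e₁) (χ : G →* ℂˣ) (hχ : Compat D ρ e₁ e₂ χ) :
    TwistedVeryAmple D.I (fun g x => D.ρ g x) ρ e₁ e₂ χ := by
  have _ := Fintype.ofFinite G
  have hmk : (n : ℤ) + 2 ≤ m * k := by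
    have h1 : n + 2 ≤ m * k := hm.trans (Nat.le_mul_of_pos_right m hk)
    exact_mod_cast h1
  -- the degrees of generators
  have hgen : ∃ (J : Type) (f : J → MvPolynomial (Fin (N + 1)) ℂ) (d : J → ℕ),
      (∀ j, (f j).IsHomogeneous (d j)) ∧ (∀ j, d j ≤ e₁ + 1) ∧ D.I = Ideal.span (Set.range f) := by
    rcases hY with ⟨c, f, d, hfd, hI, hN, hκ⟩ | h
    · refine ⟨Fin c, f, d, fun j => (hfd j).1, fun j => ?_, hI⟩
      have h1 : ∑ i, ((d i : ℤ) - 1) = ∑ i, (d i : ℤ) - c := by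
        rw [Finset.sum_sub_distrib]
        simp
      have h2 : (d j : ℤ) - 1 ≤ ∑ i, ((d i : ℤ) - 1) :=
        Finset.single_le_sum (f := fun i => (d i : ℤ) - 1) (fun i _ => by
          have := (hfd i).2.1
          omega) (Finset.mem_univ j)
      have h3 : (N : ℤ) = n + c := by exact_mod_cast hN
      have h4 : (d j : ℤ) ≤ e₁ + 1 := by
        rw [he, hκ, h3]
        linarith
      exact_mod_cast h4
    · choose t ht1 ht2 using fun p : {p | p ∈ D.I ∧ ∃ t ≤ e₁ + 1, p.IsHomogeneous t} => p.2.2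
      refine ⟨_, Subtype.val, t, ht2, ht1, ?_⟩
      rw [Subtype.range_val]
      exact h
  obtain ⟨J, f, d, hf, hd, hI⟩ := hgen
  have hS := Pool.Agent.N212.FQ.free_of_ideal hf hI D.stable D.free
  have hr : (Pool.Agent.N212.FQ.scalars D.ρ).index ≤ e₁ := Pool.Agent.N212.FQ.index_le hG
  have he0 : 1 ≤ e₁ := by
    refine le_trans ?_ hr
    have : (Pool.Agent.N212.FQ.scalars D.ρ).index ≠ 0 := Subgroup.index_ne_zero_of_finite
    omega
  have hzero := fun v => Pool.Agent.N212.FQ.zero_iff hI v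
  obtain ⟨h1, h2, h3⟩ := Pool.Agent.Zk57.TW.gtwist D.ρ ρ (I := D.I) (e₁ := e₁) he₂ χ
    (fun g => g ∈ Pool.Agent.N212.FQ.scalars D.ρ) (Subgroup.one_mem _)
    (fun g hg => by
      obtain ⟨c, hc⟩ := hg
      obtain ⟨c', hc', h⟩ := hχ g c hc
      exact ⟨c, c', hc, hc', h⟩)
    (fun y hy0 hy => Pool.Agent.N212.FQ.core_free hS (by omega) hy0 ((hzero y).2 hy))
    (fun y y' hy0 hy0' hy hy' hne => Pool.Agent.N212.FQ.core_points Pool.Agent.N148.FQ.t_pair
      Pool.Agent.N738.FQ.t_bin hS hr hd hy0 hy0' ((hzero y).2 hy) ((hzero y').2 hy')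
      (fun g t ht => hne ⟨g, t, fun i => by rw [ht]; rfl⟩))
    (fun y u hy0 hy hu hne => Pool.Agent.N212.FQ.core_tangents Pool.Agent.N148.FQ.t_pair
      Pool.Agent.N738.FQ.t_bin2 hS he0 hr hd hy0 ((hzero y).2 hy)
      ((Pool.Agent.N212.FQ.tangent_iff hI hy).2 hu)
      (fun t ht => hne ⟨t, fun i => by rw [ht]; rfl⟩))
  refine ⟨h1, h2, ?_⟩
  intro y u z w hy0 hz0 hy hu hne
  obtain ⟨F, hF1, hF2, hF3⟩ := h3 y u z w hy0 hz0 hy hu hne
  refine ⟨F, hF1, hF2, ?_⟩
  have h4 : Pool.Agent.Zk57.TW.der (Sum.elim y z) (Sum.elim u w) F =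
      ∑ x, eval (Sum.elim y z) (pderiv x F) * Sum.elim u w x := rfl
  rw [h4, Fintype.sum_sum_type] at hF3
  exact hF3

theorem result (G : Type) [Group G] [Finite G] (N M : ℕ)
    (ρ : Representation ℂ G (Fin (M + 1) → ℂ)) :
    -- (1) very ampleness on `Y / G` implies very ampleness on the twisted product
    (∀ (D : DiagonalCover G N) (e₁ e₂ : ℕ), (∀ χ : G →* ℂˣ, VeryAmple D e₁ χ) → 1 ≤ e₂ →
      ∀ χ : G →* ℂˣ, TwistedVeryAmple D.I (fun g x i => (D.α i g : ℂ) * x i) ρ e₁ e₂ χ) ∧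
    ∀ (n : ℕ) (κ : ℤ) (k m e₁ e₂ : ℕ), 1 ≤ k → n + 2 ≤ m → (e₁ : ℤ) = κ + m * k → 1 ≤ e₂ →
      ∀ χ : G →* ℂˣ,
      -- (2) diagonal actions
      (∀ D : DiagonalCover G N, CompleteIntersection 1 D.I n κ ∨ CohenMacaulay D.I n κ →
        Good D n κ e₁ →
        TwistedVeryAmple D.I (fun g x i => (D.α i g : ℂ) * x i) ρ e₁ e₂ χ) ∧
      -- (3) arbitrary finite groups of projective transformations
      (∀ D : ProjectiveCover G N,
        CompleteIntersection 1 D.I n κ ∨ GeneratedInDegreesLE D.I (e₁ + 1) →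
        IndexLE D e₁ → Compat D ρ e₁ e₂ χ →
        TwistedVeryAmple D.I (fun g x => D.ρ g x) ρ e₁ e₂ χ) := by
  refine ⟨fun D e₁ e₂ h he₂ χ => twist D ρ h he₂ χ, ?_⟩
  intro n κ k m e₁ e₂ hk hm he₁ he₂ χ
  refine ⟨fun D hY hG => ?_, fun D hY hG hχ => projective D ρ n κ k m e₁ e₂ hk hm he₁ he₂ hY hG χ hχ⟩
  refine twist D ρ (fun χ => ?_) he₂ χ
  rcases hG with hG | hG | ⟨hN, hG⟩
  · exact small D n κ hY k m e₁ hk hm he₁ (Or.inl hG) χ
  · exact small D n κ hY k m e₁ hk hm he₁ (Or.inr hG) χ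
  · exact Pool.Agent.Results.MP_e09b14_ag.SmallExponentQuotients.main D n κ hY hN k m e₁ hk hm
      he₁ hG χ

end Pool.Agent.Results.MP_e09b14_ag.IsotrivialFibrations
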