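import Pool.Agent.Zk57.EQ.Meet
import Pool.Agent.Zk57.EQ.Camp

/-!
# Fujita's very ampleness conjecture for étale quotients by diagonal groups of small exponent

`Y ⊂ P^N` is given by a homogeneous ideal `I`, and a finite group `G` acts by diagonal matrices on
`P^N`, preserving `Y`, freely on `Y`. Let `ω_Y = O(κ)` and `n = dim Y ≤ N - 2`, and let `Y` be a
complete intersection, or arithmetically Cohen-Macaulay; `Y` may be singular or reducible. For
`X = Y/G` and a line bundle `A` on `X` whose pullback to `Y` is `O(k)`, `k ≥ 1`, the sections of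
`K_X + mA` are the forms of degree `e = κ + mk` on the cone over `Y` on which `G` acts by a given
character `χ`. Let `m ≥ n + 2`.

**Theorem.** Let `δ` be the exponent of `G` and suppose that `(N - n) (δ - 1) < e`, or that `Y` is a
complete intersection of forms of degrees `≥ δ`. Then `K_X + mA` is very ample: its sections have no
common zero, separate points and separate tangent vectors.

The starting result `SmallDiagonalQuotients` has the condition `|G| ≤ e` (or `Y` is a hypersurface).
Here the order of `G` is arbitrary. So, for example, the conclusion holds for all elementary abelian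
2-groups which act freely and diagonally on a complete intersection of codimension `≥ 2` of forms of
degrees `≥ 2`, without any other condition.

Part (2): examples with `|G| > e`. The group `G = (ℤ/2)^r` acts on `P^(2^r - 2)` by its `2^r - 1`
nontrivial characters, and freely on the intersection of `2^(r - 1)` general diagonal quadrics. The
quotient `X` has dimension `n = 2^(r - 1) - 2` and `K_X` is numerically a hyperplane section; for `r = 3`
these are the classical Campedelli surfaces with fundamental group `(ℤ/2)^3`. For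
`m = n + 2` and `k = 1` we have `e = 2^(r - 1) + 1 < |G|`.

Proof. Let `χ_i = (1, α_i)` be the weight of the coordinate `x_i` in `ℤ × Ĝ`, `c = N - n`. For `w ∈ Y`
the weights `χ_i`, `w_i ≠ 0`, generate `ℤ × Ĝ`, and for a set `T` of coordinates, whose span meets `Y`,
all weights of degree `≥ (|T| - 1) (δ - 1)` are weights of monomials in the `x_i`, `i ∈ T`: reduce the
exponents modulo `δ`. Every set of `c + 1` coordinates is of this kind. Let `y, y' ∈ Y` be two points
which are not separated. They have the same support `S`, by a lemma of the starting result. (A) Suppose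
that all the sets `S ∖ i` meet `Y` (this is automatic if `|S| ≥ c + 2`). Let `T' ⊆ S` have at most `c + 2`
elements such that all `T' ∖ i` meet `Y`. Then there is a monomial of the weight `(e, χ)` in the
variables `x_i`, `i ∈ T'`, with some exponent `≥ δ`: otherwise all the vectors of residues modulo `δ`
of the weight `(e, χ)` have sum `≥ e`, but their average is `|T'| (δ - 1) / 2 < e`. Hence `τ_i = y'_i / y_i`
satisfies `τ_i ^ δ = τ_l ^ δ` for `i, l ∈ S`. (For tangent vectors `y + ε u` the same argument shows that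
`u_i / y_i` is constant.) Now let `T ⊆ S` have at most `c + 1` elements and meet `Y`. As all weights of
degree `e - 1 ≥ c (δ - 1)` occur on `T`, the extended weights `(1, α_i, τ_i)`, `i ∈ S`, are in the group
generated by the `(1, α_i, τ_i)`, `i ∈ T`, and by reduction modulo `δ` on `T` it follows that
`τ ^ a = 1` for all relations `a` between the `χ_i`. So the points are not separated in any large degree,
which contradicts the starting result. (B) If `S ∖ i` does not meet `Y` for some `i ∈ S`, then every form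
of degree `e + 1` is a multiple of `x_i` modulo `I` and the `x_j`, `j ∉ S` (Macaulay's bound), so
points which are not separated by the forms of type `(e, χ)` are not separated by those of type
`(e + 1, χ α_i)`, and so on. Again this contradicts the starting result in large degrees.
-/

set_option autoImplicit false

namespace Pool.Agent.Results.MP_e09b14_ag.SmallExponentQuotients

open MvPolynomial

/-- A homogeneous ideal `I` in `ℂ[x_0, …, x_N]` and an action of `G` on `ℂ^(N+1)` by diagonal
matrices, the `i`-th coordinate being multiplied by the character `α i`. The ideal `I` is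
stable under `G`, and no element `g ≠ 1` fixes a line in its zero set. -/
structure DiagonalCover (G : Type) [Group G] (N : ℕ) where
  I : Ideal (MvPolynomial (Fin (N + 1)) ℂ)
  homogeneous : ∀ p ∈ I, ∀ n, homogeneousComponent n p ∈ I
  α : Fin (N + 1) → G →* ℂˣ
  stable : ∀ (g : G), ∀ p ∈ I, bind₁ (fun i => C (α i g : ℂ) * X i) p ∈ I
  free : ∀ v : Fin (N + 1) → ℂ, v ≠ 0 → (∀ p ∈ I, eval v p = 0) → ∀ (g : G) (μ : ℂ),
    (∀ i, (α i g : ℂ) * v i = μ * v i) → g = 1

/-- the linear form with coefficients `a` -/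
noncomputable def linForm {N : ℕ} (a : Fin (N + 1) → ℂ) : MvPolynomial (Fin (N + 1)) ℂ :=
  ∑ i, C (a i) * X i

/-- `I` is generated by `c = N - n` forms of degrees `d j ≥ 1`, `d j ≥ δ`, and
`κ = ∑ d j - (N + 1)`. -/
def CompleteIntersection {N : ℕ} (δ : ℕ) (I : Ideal (MvPolynomial (Fin (N + 1)) ℂ)) (n : ℕ)
    (κ : ℤ) : Prop :=
  ∃ (c : ℕ) (f : Fin c → MvPolynomial (Fin (N + 1)) ℂ) (d : Fin c → ℕ),
    (∀ j, (f j).IsHomogeneous (d j) ∧ 0 < d j ∧ δ ≤ d j) ∧ I = Ideal.span (Set.range f) ∧
    N = n + c ∧ κ = ∑ j, (d j : ℤ) - (N + 1)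

/-- There are `n + 1` linear forms which are a regular sequence modulo `I`, and modulo `I` and these
linear forms there are no nonzero forms of degree `> κ + n + 1`. For the ideal of an arithmetically
Cohen-Macaulay variety of dimension `n` this says that the `a`-invariant is at most `κ`. -/
def CohenMacaulay {N : ℕ} (I : Ideal (MvPolynomial (Fin (N + 1)) ℂ)) (n : ℕ) (κ : ℤ) : Prop :=
  ∃ a : Fin (n + 1) → Fin (N + 1) → ℂ,
    (∀ i p, linForm (a i) * p ∈ I ⊔ Ideal.span ((fun j => linForm (a j)) '' {j | j < i}) →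
      p ∈ I ⊔ Ideal.span ((fun j => linForm (a j)) '' {j | j < i})) ∧
    ∀ t : ℕ, κ + n + 1 < t → ∀ p : MvPolynomial (Fin (N + 1)) ℂ, p.IsHomogeneous t →
      p ∈ I ⊔ Ideal.span (Set.range fun j => linForm (a j))

/-- The forms of degree `e` on which `G` acts by the character `χ`: the sections of the line bundle
on `X = Y/G` given by `e` and `χ`. -/
def Section {G : Type} [Group G] {N : ℕ} (D : DiagonalCover G N) (e : ℕ) (χ : G →* ℂˣ)
    (F : MvPolynomial (Fin (N + 1)) ℂ) : Prop :=
  F.IsHomogeneous e ∧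
    ∀ (g : G) (x : Fin (N + 1) → ℂ), eval (fun i => (D.α i g : ℂ) * x i) F = χ g * eval x F

/-- The sections of degree `e` and character `χ` embed `X = Y/G`. -/
def VeryAmple {G : Type} [Group G] {N : ℕ} (D : DiagonalCover G N) (e : ℕ) (χ : G →* ℂˣ) : Prop :=
  -- no base points
  (∀ y : Fin (N + 1) → ℂ, y ≠ 0 → (∀ p ∈ D.I, eval y p = 0) →
    ∃ F, Section D e χ F ∧ eval y F ≠ 0) ∧
  -- points are separated
  (∀ y z : Fin (N + 1) → ℂ, y ≠ 0 → z ≠ 0 → (∀ p ∈ D.I, eval y p = 0) →
    (∀ p ∈ D.I, eval z p = 0) → (¬ ∃ (g : G) (c : ℂ), ∀ i, z i = c * (D.α i g * y i)) →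
    ∃ F, Section D e χ F ∧ eval y F = 0 ∧ eval z F ≠ 0) ∧
  -- tangent vectors are separated
  (∀ y u : Fin (N + 1) → ℂ, y ≠ 0 → (∀ p ∈ D.I, eval y p = 0) →
    (∀ p ∈ D.I, ∑ i, eval y (pderiv i p) * u i = 0) → (¬ ∃ c : ℂ, ∀ i, u i = c * y i) →
    ∃ F, Section D e χ F ∧ eval y F = 0 ∧ ∑ i, eval y (pderiv i F) * u i ≠ 0)

open Pool.Agent.TH144.MB in
theorem reg_ofFn {N : ℕ} (s : ℕ) : ∀ (a : Fin s → Fin (N + 1) → ℂ)
    (I : Ideal (MvPolynomial (Fin (N + 1)) ℂ)),
    (∀ i p, linForm (a i) * p ∈ I ⊔ Ideal.span ((fun j => linForm (a j)) '' {j | j < i}) →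
      p ∈ I ⊔ Ideal.span ((fun j => linForm (a j)) '' {j | j < i})) →
    Reg I ((List.ofFn a).map lin) := by
  induction s with
  | zero => intro a I _; simp [Reg]
  | succ s ih =>
    intro a I h
    rw [List.ofFn_succ, List.map_cons]
    refine ⟨?_, ih _ _ ?_⟩
    · have h0 := h 0
      have h1 : {j : Fin (s + 1) | j < 0} = ∅ := by
        ext j
        simp
      rw [h1, Set.image_empty, Ideal.span_empty, sup_bot_eq] at h0
      exact h0
    · intro i p
      have h0 := h i.succ p
      have h1 : {j : Fin (s + 1) | j < i.succ} = {0} ∪ Fin.succ '' {j | j < i} := by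
        ext j
        refine Fin.cases ?_ (fun j => ?_) j
        · simp
        · simp [Fin.succ_ne_zero]
      have h2 : I ⊔ Ideal.span ((fun j => linForm (a j)) '' {j | j < i.succ})
          = I ⊔ Ideal.span {lin (a 0)}
            ⊔ Ideal.span ((fun j => linForm (a (Fin.succ j))) '' {j | j < i}) := by
        rw [h1, Set.image_union, Set.image_singleton, Ideal.span_union, ← sup_assoc,
          Set.image_image]
        rfl
      rw [h2] at h0
      exact h0

open Pool.Agent.TH144.MB in
theorem le_ext_ofFn {N : ℕ} (s : ℕ) (a : Fin s → Fin (N + 1) → ℂ)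
    (I : Ideal (MvPolynomial (Fin (N + 1)) ℂ)) :
    I ⊔ Ideal.span (Set.range fun j => linForm (a j)) ≤ ext I ((List.ofFn a).map lin) := by
  have h4 : ∀ (L : List (MvPolynomial (Fin (N + 1)) ℂ))
      (I : Ideal (MvPolynomial (Fin (N + 1)) ℂ)), ∀ f ∈ L, f ∈ ext I L := by
    intro L
    induction L with
    | nil => intro I f hf; simp at hf
    | cons g L ih =>
      intro I f hf
      rw [ext_cons]
      rcases List.mem_cons.1 hf with rfl | hf
      · exact Ideal.mem_sup_right (Ideal.mem_span_singleton_self f)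
      · exact Ideal.mem_sup_left (ih I f hf)
  refine sup_le (le_ext _ _) ?_
  rw [Ideal.span_le]
  rintro _ ⟨j, rfl⟩
  refine h4 _ _ _ (List.mem_map.2 ⟨a j, ?_, rfl⟩)
  rw [List.mem_ofFn]
  exact ⟨j, rfl⟩

theorem main {G : Type} [Group G] [Finite G] {N : ℕ} (D : DiagonalCover G N) (n : ℕ) (κ : ℤ)
    (hY : CompleteIntersection 1 D.I n κ ∨ CohenMacaulay D.I n κ) (hn : n + 2 ≤ N)
    (k m e : ℕ) (hk : 1 ≤ k) (hm : n + 2 ≤ m) (he : (e : ℤ) = κ + m * k)
    (hG : (N - n) * (Monoid.exponent G - 1) < e ∨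
      CompleteIntersection (Monoid.exponent G) D.I n κ)
    (χ : G →* ℂˣ) : VeryAmple D e χ := by
  classical
  have _ := Fintype.ofFinite G
  have hmk : (n : ℤ) + 2 ≤ m * k := by
    have h1 : n + 2 ≤ m * k := hm.trans (Nat.le_mul_of_pos_right m hk)
    exact_mod_cast h1
  have hst : ∀ v : Fin (N + 1) → ℂ, (∀ p ∈ D.I, eval v p = 0) → ∀ (g : G), ∀ p ∈ D.I,
      eval (Pool.Agent.TH144.MB.mv D.α g v) p = 0 := by
    intro v hv g p hp
    rw [← Pool.Agent.TH144.MB.eval_act]
    exact hv _ (D.stable g p hp)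
  let S : Pool.Agent.TH144.MB.Sit ℂ G (N + 1) :=
    { I := D.I, hom := D.homogeneous, α := D.α, stable := hst, free := D.free }
  have hci : ∀ δ : ℕ, CompleteIntersection δ D.I n κ → CompleteIntersection 1 D.I n κ := by
    rintro δ ⟨c, f, d, hfd, h⟩
    exact ⟨c, f, d, fun j => ⟨(hfd j).1, (hfd j).2.1, (hfd j).2.1⟩, h⟩
  have key : ∀ y : Fin (N + 1) → ℂ, (∀ p ∈ D.I, eval y p = 0) →
      (∃ ρ, Pool.Agent.TH144.MB.TopBound D.I ρ ∧ ρ + 1 ≤ e) ∧
      ∀ T : Finset (Fin (N + 1)), T.card = (N - n) + 1 → Pool.Agent.Zk57.EQ.Meets S T := by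
    intro y hy
    rcases hY with ⟨c, f, d, hfd, hI, hN, hκ⟩ | ⟨a, ha, hb⟩
    · refine ⟨⟨∑ j, (d j - 1), ?_, ?_⟩, ?_⟩
      · rw [hI]
        exact Pool.Agent.TH144.MB.topBound_forms f d (fun j => (hfd j).1) fun j => (hfd j).2.1
      · have h1 : ((∑ j, (d j - 1) : ℕ) : ℤ) = ∑ j, (d j : ℤ) - c := by
          rw [Nat.cast_sum]
          have h2 : ∀ j, ((d j - 1 : ℕ) : ℤ) = (d j : ℤ) - 1 := fun j => by
            have := (hfd j).2.1
            omega
          simp only [h2]
          rw [Finset.sum_sub_distrib]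
          simp
        have h3 : (N : ℤ) = n + c := by exact_mod_cast hN
        have h4 : ((∑ j, (d j - 1) : ℕ) : ℤ) + 1 ≤ e := by
          rw [h1, he, hκ, h3]
          linarith
        exact_mod_cast h4
      · intro T hT
        obtain ⟨w, h1, h2, h3⟩ := Pool.Agent.Zk57.EQ.meets_ci f d
          (fun j => ⟨(hfd j).1, (hfd j).2.1⟩) T (by rw [hT]; omega)
        refine ⟨w, h1, ?_, h3⟩
        intro p hp
        exact h2 p (by rw [← hI]; exact hp)
    · -- the degree bound
      have h1I : (1 : MvPolynomial (Fin (N + 1)) ℂ) ∈ D.I ⊔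
          Ideal.span (Set.range fun j => linForm (a j)) → False := by
        intro h1
        have h2 : D.I ⊔ Ideal.span (Set.range fun j => linForm (a j))
            ≤ RingHom.ker (eval (fun i => (0 : ℂ) * y i)) := by
          refine sup_le (fun p hp => RingHom.mem_ker.2
            (Pool.Agent.TH144.MB.cone D.homogeneous hy 0 p hp)) ?_
          rw [Ideal.span_le]
          rintro _ ⟨j, rfl⟩
          refine RingHom.mem_ker.2 ?_
          simp [linForm]
        have h3 := RingHom.mem_ker.1 (h2 h1)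
        rw [map_one] at h3
        exact one_ne_zero h3
      rcases lt_or_ge (κ + n + 1) 0 with h0 | h0
      · exact (h1I (hb 0 (by simpa using h0) 1 (isHomogeneous_one _ _))).elim
      · have hτ : ∀ t, (κ + n + 1).toNat < t → ∀ p : MvPolynomial (Fin (N + 1)) ℂ,
            p.IsHomogeneous t → p ∈ Pool.Agent.TH144.MB.ext D.I
              ((List.ofFn a).map Pool.Agent.TH144.MB.lin) := by
          intro t ht p hp
          refine le_ext_ofFn (n + 1) a D.I (hb t ?_ p hp)
          omega
        refine ⟨⟨(κ + n + 1).toNat, ?_, by omega⟩, ?_⟩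
        · exact Pool.Agent.TH144.MB.topBound_cm D.homogeneous (List.ofFn a)
            (reg_ofFn (n + 1) a D.I ha) hτ
        · intro T hT
          exact Pool.Agent.Zk57.EQ.meets_cm D.homogeneous
            (fun h => h1I (Ideal.mem_sup_left h)) (List.ofFn a) (reg_ofFn (n + 1) a D.I ha) hτ T
            (by rw [List.length_ofFn, hT]; omega)
  have hδ : 0 < Monoid.exponent G := Monoid.exponent_pos.2 Monoid.ExponentExists.of_finite
  have hα : ∀ i, S.α i ^ Monoid.exponent G = 1 := by
    intro i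
    ext g
    rw [MonoidHom.pow_apply, ← map_pow, Monoid.pow_exponent_eq_one, map_one, MonoidHom.one_apply]
  have hr : (N - n) * (Monoid.exponent G - 1) + 1 ≤ e := by
    rcases hG with hG | ⟨c, f, d, hfd, hI, hN, hκ⟩
    · exact hG
    · have h1 : ((∑ j, (d j - 1) : ℕ) : ℤ) = ∑ j, (d j : ℤ) - c := by
        rw [Nat.cast_sum]
        have h2 : ∀ j, ((d j - 1 : ℕ) : ℤ) = (d j : ℤ) - 1 := fun j => by
          have := (hfd j).2.1
          omega
        simp only [h2]
        rw [Finset.sum_sub_distrib]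
        simp
      have h3 : (N : ℤ) = n + c := by exact_mod_cast hN
      have h4 : ((∑ j, (d j - 1) : ℕ) : ℤ) + 1 ≤ e := by
        rw [h1, he, hκ, h3]
        linarith
      have h5 : ∑ j, (d j - 1) + 1 ≤ e := by exact_mod_cast h4
      have h6 : ∑ _j : Fin c, (Monoid.exponent G - 1) ≤ ∑ j, (d j - 1) :=
        Finset.sum_le_sum fun j _ => by have := (hfd j).2.2; omega
      rw [Finset.sum_const, Finset.card_univ, Fintype.card_fin, smul_eq_mul] at h6
      have h7 : N - n = c := by omega
      rw [h7]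
      omega
  have hc : 2 ≤ N - n := by omega
  refine ⟨?_, ?_, ?_⟩
  · intro y hy0 hy
    obtain ⟨⟨ρ, hρ, hρe⟩, -⟩ := key y hy
    obtain ⟨μ, h1, h2, h3⟩ := S.exists_mono hρ hy0 hy χ (t := e) (by omega)
    have h4 := Pool.Agent.TH144.MB.typ_monomial h2
    rw [h1] at h4
    exact ⟨_, h4, by rw [Pool.Agent.TH144.MB.eval_mono]; exact h3⟩
  · intro y z hy0 hz0 hy hz hyz
    obtain ⟨⟨ρ, hρ, hρe⟩, hmeet⟩ := key y hy
    obtain ⟨F, h1, h2, h3⟩ := Pool.Agent.Zk57.EQ.points_exp (S := S) D.stable hδ hα hc hmeet hρ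
      (y := z) (y' := y) hz0 hz hy0 hy (by
      intro g h
      obtain ⟨c, hc⟩ := Submodule.mem_span_singleton.1 h
      have hc0 : c ≠ 0 := by
        rintro rfl
        rw [zero_smul] at hc
        exact hy0 (funext fun i =>
          (Pool.Agent.TH144.MB.mv_supp D.α g y i).1 (congrFun hc i).symm)
      refine hyz ⟨g, c⁻¹, fun i => ?_⟩
      have h1 := congrFun hc i
      simp only [Pi.smul_apply, smul_eq_mul, Pool.Agent.TH144.MB.mv] at h1
      have h2 : z i = c⁻¹ * (c * z i) := by
        rw [← mul_assoc, inv_mul_cancel₀ hc0, one_mul]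
      rw [h2, h1]) χ hρe hr
    exact ⟨F, h1, h3, h2⟩
  · intro y u hy0 hy hu hne
    obtain ⟨⟨ρ, hρ, hρe⟩, hmeet⟩ := key y hy
    exact Pool.Agent.Zk57.EQ.tangents_exp (S := S) D.stable hδ hα hc hmeet hρ hy0 hy hu (by
      intro h
      obtain ⟨c, hc⟩ := Submodule.mem_span_singleton.1 h
      exact hne ⟨c, fun i => by rw [← hc]; rfl⟩) χ hρe hr

/-- the diagonal quadric `∑ i ^ j x_i²` -/
noncomputable def quadric (M : ℕ) (j : ℕ) : MvPolynomial (Fin M) ℂ :=
  ∑ i : Fin M, C (((i : ℕ) : ℂ) ^ j) * X i ^ 2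

theorem quadric_hom (M j : ℕ) : (quadric M j).IsHomogeneous 2 := by
  refine IsHomogeneous.sum _ _ _ fun i _ => ?_
  have h := (isHomogeneous_C (Fin M) (((i : ℕ) : ℂ) ^ j)).mul ((isHomogeneous_X ℂ i).pow 2)
  rwa [zero_add, one_mul] at h

theorem eval_quadric (M j : ℕ) (v : Fin M → ℂ) :
    eval v (quadric M j) = ∑ i : Fin M, ((i : ℕ) : ℂ) ^ j * v i ^ 2 := by
  unfold quadric
  rw [map_sum]
  exact Finset.sum_congr rfl fun i _ => by simp

open Pool.Agent.Zk57.EQ.Camp in
/-- The group `(ℤ/2)^r` acts freely on the intersection of `2 ^ (r - 1)` diagonal quadrics in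
`P^(2 ^ r - 2)`. -/
theorem campedelli (r : ℕ) (hr : 3 ≤ r) :
    ∃ D : DiagonalCover (Multiplicative (Fin r → ZMod 2)) (2 ^ r - 2),
      CompleteIntersection 2 D.I (2 ^ (r - 1) - 2) 1 := by
  classical
  have hpow : 2 ^ r = 2 * 2 ^ (r - 1) := by
    rw [← pow_succ']
    congr 1
    omega
  have h4 : 4 ≤ 2 ^ (r - 1) := by
    have h : 2 ^ 2 ≤ 2 ^ (r - 1) := Nat.pow_le_pow_right (by norm_num) (by omega)
    omega
  have hcard : Fintype.card {w : V r // w ≠ 0} = 2 ^ r - 2 + 1 := by
    rw [Fintype.card_subtype_compl, Fintype.card_fun, ZMod.card, Fintype.card_fin,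
      Fintype.card_subtype_eq]
    omega
  let w : Fin (2 ^ r - 2 + 1) ≃ {w : V r // w ≠ 0} :=
    (Fintype.equivFinOfCardEq hcard).symm
  set I : Ideal (MvPolynomial (Fin (2 ^ r - 2 + 1)) ℂ) :=
    Ideal.span (Set.range fun j : Fin (2 ^ (r - 1)) => quadric (2 ^ r - 2 + 1) j) with hI
  refine ⟨{ I := I
            homogeneous := ?_
            α := fun i => ch (w i).1
            stable := ?_
            free := ?_ }, ?_⟩
  · refine Pool.Agent.TH144.MB.hom_span ?_
    rintro _ ⟨j, rfl⟩
    exact ⟨2, quadric_hom _ _⟩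
  · intro g
    have h1 : I ≤ I.comap (bind₁ fun i => C (ch (w i).1 g : ℂ) * X i :
        MvPolynomial (Fin (2 ^ r - 2 + 1)) ℂ →ₐ[ℂ] MvPolynomial (Fin (2 ^ r - 2 + 1)) ℂ) := by
      rw [hI, Ideal.span_le]
      rintro _ ⟨j, rfl⟩
      change bind₁ (fun i => C (ch (w i).1 g : ℂ) * X i) (quadric (2 ^ r - 2 + 1) j) ∈
        Ideal.span (Set.range fun j : Fin (2 ^ (r - 1)) => quadric (2 ^ r - 2 + 1) j)
      have h2 : bind₁ (fun i => C (ch (w i).1 g : ℂ) * X i) (quadric (2 ^ r - 2 + 1) j)
          = quadric (2 ^ r - 2 + 1) j := by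
        unfold quadric
        rw [map_sum]
        refine Finset.sum_congr rfl fun i _ => ?_
        have h3 : ((ch (w i).1 g : ℂˣ) : ℂ) ^ 2 = 1 := by
          rw [← Units.val_pow_eq_pow_val, ch_sq, Units.val_one]
        have h5 : bind₁ (fun i => C (ch (w i).1 g : ℂ) * X i)
            (X i ^ 2 : MvPolynomial (Fin (2 ^ r - 2 + 1)) ℂ) = X i ^ 2 := by
          rw [map_pow, bind₁_X_right, mul_pow, ← C_pow, h3, C_1, one_mul]
        rw [map_mul, bind₁_C_right, h5]
      rw [h2]
      exact Ideal.subset_span ⟨j, rfl⟩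
    exact fun p hp => h1 hp
  · intro v hv0 hv g μ h
    by_contra hg
    have hg' : g.toAdd ≠ 0 := fun h' => hg h'
    obtain ⟨i₁, hi₁⟩ : ∃ i, v i ≠ 0 := by
      by_contra hc
      push Not at hc
      exact hv0 (funext hc)
    set ε : ZMod 2 := dot (w i₁).1 g.toAdd with hε
    set T : Finset (Fin (2 ^ r - 2 + 1)) :=
      Finset.univ.filter fun i => dot (w i).1 g.toAdd = ε with hT
    have hTc : T.card ≤ 2 ^ (r - 1) := by
      have h5 := card_dot hg' ε
      have h6 : T.card ≤ (Finset.univ.filter fun w : V r => dot w g.toAdd = ε).card := by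
        refine Finset.card_le_card_of_injOn (fun i => (w i).1) ?_ ?_
        · intro i hi
          rw [hT, Finset.mem_coe, Finset.mem_filter] at hi
          rw [Finset.mem_coe, Finset.mem_filter]
          exact ⟨Finset.mem_univ _, hi.2⟩
        · intro i _ i' _ hii
          exact w.injective (Subtype.ext hii)
      omega
    have hz : ∀ i, i ∉ T → v i ^ 2 = 0 := by
      intro i hi
      have h5 : dot (w i).1 g.toAdd ≠ ε := fun h' =>
        hi (by rw [hT, Finset.mem_filter]; exact ⟨Finset.mem_univ _, h'⟩)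
      by_contra hvi
      have hvi' : v i ≠ 0 := fun h' => hvi (by rw [h', zero_pow two_ne_zero])
      have h6 := mul_right_cancel₀ hvi' (h i)
      have h7 := mul_right_cancel₀ hi₁ (h i₁)
      rw [← h7] at h6
      have h8 : ch (w i).1 g = ch (w i₁).1 g := Units.ext h6
      rw [ch_apply, ch_apply, ← hε] at h8
      have h9 : ∀ z : ZMod 2, z = 0 ∨ z = 1 := by decide
      have h10 : (1 : ZMod 2) ≠ 0 := by decide
      have h11 : (1 : ℂˣ) ≠ -1 := by
        intro h'
        have := congrArg (fun u : ℂˣ => (u : ℂ)) h'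
        simp only [Units.val_one, Units.val_neg] at this
        norm_num at this
      rcases h9 (dot (w i).1 g.toAdd) with h12 | h12 <;> rcases h9 ε with h13 | h13
      · exact h5 (h12.trans h13.symm)
      · rw [h12, h13, if_pos rfl, if_neg h10] at h8
        exact h11 h8
      · rw [h12, h13, if_pos rfl, if_neg h10] at h8
        exact h11 h8.symm
      · exact h5 (h12.trans h13.symm)
    have h14 := vander (a := fun i : Fin (2 ^ r - 2 + 1) => ((i : ℕ) : ℂ))
      (z := fun i => v i ^ 2) (by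
        intro i i' hii
        exact Fin.ext (Nat.cast_injective hii)) T hTc hz (by
        intro j hj
        have h15 := hv (quadric (2 ^ r - 2 + 1) j) (by
          rw [hI]
          exact Ideal.subset_span ⟨⟨j, hj⟩, rfl⟩)
        rw [eval_quadric] at h15
        exact h15) i₁
    exact hi₁ (pow_eq_zero_iff two_ne_zero |>.1 h14)
  · refine ⟨2 ^ (r - 1), fun j => quadric (2 ^ r - 2 + 1) j, fun _ => 2,
      fun j => ⟨quadric_hom _ _, by norm_num, le_rfl⟩, rfl, by omega, ?_⟩
    rw [Finset.sum_const, Finset.card_univ, Fintype.card_fin, nsmul_eq_mul]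
    have h16 : ((2 ^ r - 2 : ℕ) : ℤ) = 2 * ((2 ^ (r - 1) : ℕ) : ℤ) - 2 := by omega
    rw [h16]
    push_cast
    ring

theorem result :
    -- (1) the theorem
    (∀ (G : Type) [Group G] [Finite G] (N : ℕ) (D : DiagonalCover G N) (n : ℕ) (κ : ℤ),
      CompleteIntersection 1 D.I n κ ∨ CohenMacaulay D.I n κ → n + 2 ≤ N →
      ∀ k m e : ℕ, 1 ≤ k → n + 2 ≤ m → (e : ℤ) = κ + m * k →
      (N - n) * (Monoid.exponent G - 1) < e ∨ CompleteIntersection (Monoid.exponent G) D.I n κ →
      ∀ χ : G →* ℂˣ, VeryAmple D e χ) ∧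
    -- (2) the Campedelli varieties
    (∀ r : ℕ, 3 ≤ r → Nat.card (Multiplicative (Fin r → ZMod 2)) = 2 ^ r ∧
      ∃ D : DiagonalCover (Multiplicative (Fin r → ZMod 2)) (2 ^ r - 2),
        CompleteIntersection 2 D.I (2 ^ (r - 1) - 2) 1 ∧
        ∀ (k m e : ℕ), 1 ≤ k → 2 ^ (r - 1) ≤ m → e = 1 + m * k →
          ∀ χ : Multiplicative (Fin r → ZMod 2) →* ℂˣ, VeryAmple D e χ) := by
  refine ⟨fun G _ _ N D n κ hY hn k m e hk hm he hG χ => main D n κ hY hn k m e hk hm he hG χ, ?_⟩
  intro r hr
  refine ⟨?_, ?_⟩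
  · rw [Nat.card_eq_fintype_card, Fintype.card_multiplicative, Fintype.card_fun, ZMod.card,
      Fintype.card_fin]
  obtain ⟨D, hD⟩ := campedelli r hr
  have hpow : 2 ^ r = 2 * 2 ^ (r - 1) := by
    rw [← pow_succ']
    congr 1
    omega
  have h4 : 4 ≤ 2 ^ (r - 1) := by
    have h : 2 ^ 2 ≤ 2 ^ (r - 1) := Nat.pow_le_pow_right (by norm_num) (by omega)
    omega
  refine ⟨D, hD, fun k m e hk hm he χ => ?_⟩
  have hexp : Monoid.exponent (Multiplicative (Fin r → ZMod 2)) ≤ 2 := by
    refine Nat.le_of_dvd (by norm_num) (Monoid.exponent_dvd_of_forall_pow_eq_one fun g => ?_)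
    apply Multiplicative.toAdd.injective
    rw [toAdd_pow, toAdd_one]
    funext j
    have h : ∀ z : ZMod 2, 2 • z = 0 := by decide
    exact h _
  obtain ⟨c, f, d, hfd, h1, h2, h3⟩ := hD
  refine main D (2 ^ (r - 1) - 2) 1
    (Or.inl ⟨c, f, d, fun j => ⟨(hfd j).1, (hfd j).2.1, (hfd j).2.1⟩, h1, h2, h3⟩) (by omega)
    k m e hk (by omega) (by rw [he]; push_cast; ring)
    (Or.inr ⟨c, f, d, fun j => ⟨(hfd j).1, (hfd j).2.1, hexp.trans (hfd j).2.2⟩, h1, h2, h3⟩) χ

end Pool.Agent.Results.MP_e09b14_ag.SmallExponentQuotients
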